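import Pool.Agent.Lib.DFE.Fin3

/-!
The self-attracting polymer just below the critical line consists of large dense droplets.
-/

set_option autoImplicit false

namespace Pool.Agent.Results.MP_d84477_pr.CriticalDroplets

open Pool.Agent.DCOL

/-- For all `d ≥ 1`, `β > 0` and `ε > 0` and all `γ < β` close to `β`, with `δ = β - γ`,
`S = √(δ log (1/δ))` and `a = S / (2δ)`: for large `n`, up to probability `e^(-c S n)`, there is a
level `u` between `a / 3` and `2 a / 3` such that all but `ε n` of the monomers lie in connected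
components of the set of the sites with local time at least `u` that have at least `(ε √δ)^(-d)`
sites. -/
theorem result : ∀ d : ℕ, 1 ≤ d → ∀ β ε : ℝ, 0 < β → 0 < ε →
    ∃ δ₀ c : ℝ, 0 < δ₀ ∧ 0 < c ∧ ∀ γ S a : ℝ, β - δ₀ ≤ γ → γ < β →
      S = Real.sqrt ((β - γ) * Real.log (1 / (β - γ))) → a = S / (2 * (β - γ)) →
      ∃ n₀ : ℕ, ∀ n : ℕ, n₀ ≤ n →
        prob d β γ n (fun s => ¬ ∃ u : ℕ, a / 3 ≤ u ∧ (u : ℝ) ≤ 2 * a / 3 ∧
          ({i : ℕ | i ≤ n ∧ ¬ (u ≤ localTime s (pos s i) ∧
            (1 / (ε * Real.sqrt (β - γ))) ^ d ≤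
              ({y : Site d | Relation.ReflTransGen (fun p q : Site d => u ≤ localTime s q ∧
                ∃ t : Step d, q = p + vec t) (pos s i) y}.ncard : ℝ))}.ncard : ℝ) ≤ ε * n) ≤
            Real.exp (-(c * S * n)) :=
  fun _ hd _ _ hβ hε => Pool.Agent.DFE.droplets Pool.Agent.DFE.drop_all hd hβ hε

end Pool.Agent.Results.MP_d84477_pr.CriticalDroplets
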