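import Pool.Agent.Lib.DFE.Fin3

/-!
The local times and the energy of the self-attracting polymer just below the critical line.
-/

set_option autoImplicit false

namespace Pool.Agent.Results.MP_d84477_pr.CriticalLocalTimes

open Pool.Agent.DCOL

/-- For all `d ≥ 1`, `β > 0` and `ε > 0` and all `γ < β` close to `β`, with `δ = β - γ`,
`S = √(δ log (1/δ))` and `a = S / (2δ)`: for large `n`, up to probability `3 e^(-c S n)`, all but
`ε n` of the monomers are at sites with local time between `(1 - ε) a` and `(1 + ε) a`, the sum of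
the squares of the local times is `(1 ± ε) a n` and the energy is `(1 ± 2 ε) S n / 2`. -/
theorem result : ∀ d : ℕ, 1 ≤ d → ∀ β ε : ℝ, 0 < β → 0 < ε →
    ∃ δ₀ c : ℝ, 0 < δ₀ ∧ 0 < c ∧ ∀ γ S a : ℝ, β - δ₀ ≤ γ → γ < β →
      S = Real.sqrt ((β - γ) * Real.log (1 / (β - γ))) → a = S / (2 * (β - γ)) →
      ∃ n₀ : ℕ, ∀ n : ℕ, n₀ ≤ n →
        prob d β γ n (fun s => ε * n ≤
          ({i : ℕ | i ≤ n ∧ ε * a < |(localTime s (pos s i) : ℝ) - a|}.ncard : ℝ)) ≤
            Real.exp (-(c * S * n)) ∧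
        prob d β γ n (fun s => ε * (a * n) ≤ |∑' x, (localTime s x : ℝ) ^ 2 - a * n|) ≤
            Real.exp (-(c * S * n)) ∧
        prob d β γ n (fun s => ε * (S * n) ≤ |energy β γ s - S * n / 2|) ≤
            Real.exp (-(c * S * n)) :=
  fun _ hd _ _ hβ hε =>
    Pool.Agent.DFE.local_times Pool.Agent.DFE.tail_all Pool.Agent.DFE.badt_all hd hβ hε

end Pool.Agent.Results.MP_d84477_pr.CriticalLocalTimes
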