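import Pool.Agent.Lib.DFE.Fin8

/-!
Two terms of the free energy and the exact order of the number of visited sites of the
self-attracting polymer just below the critical line.
-/

set_option autoImplicit false

namespace Pool.Agent.Results.MP_d84477_pr.CriticalRange

open Pool.Agent.DCOL

/-- For all `d ≥ 1` and `0 < b ≤ B` there is `C` such that for all `b ≤ β ≤ B` and all `γ < β` close
to `β`, with `δ = β - γ`, `L = log (1/δ)`, `S = √(δ L)` and `a = S / (2δ)`: for large `n` the
partition function is `(2d)^n e^(-S (1 + log L / (2 L) ± C / L) n)`, the number of visited sites lies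
between `n / (C a)` and `C n / a` up to probability `2 e^(-n/a)`, and the mean square end-to-end
distance is at most `(C n / a)²`. -/
theorem result : ∀ d : ℕ, 1 ≤ d → ∀ b B : ℝ, 0 < b →
    ∃ C δ₀ : ℝ, 0 < C ∧ 0 < δ₀ ∧ ∀ β γ δ L S a : ℝ, b ≤ β → β ≤ B → β - δ₀ ≤ γ → γ < β →
      δ = β - γ → L = Real.log (1 / δ) → S = Real.sqrt (δ * L) → a = S / (2 * δ) →
      ∃ n₀ : ℕ, ∀ n : ℕ, n₀ ≤ n →
        ((2 * d) ^ n * Real.exp (-(S * (1 + Real.log L / (2 * L) + C / L) * n)) ≤
            partitionFunction d β γ n ∧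
          partitionFunction d β γ n ≤
            (2 * d) ^ n * Real.exp (-(S * (1 + Real.log L / (2 * L) - C / L) * n))) ∧
        prob d β γ n (fun s => ((visited s).card : ℝ) ≤ n / (C * a)) ≤ Real.exp (-(n / a)) ∧
        prob d β γ n (fun s => C * (n / a) ≤ ((visited s).card : ℝ)) ≤ Real.exp (-(n / a)) ∧
        meanSquare d β γ n ≤ (C * (n / a)) ^ 2 :=
  fun _ hd _ _ hb => Pool.Agent.DFE.expansion_all hd hb

end Pool.Agent.Results.MP_d84477_pr.CriticalRange
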