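import Pool.Agent.Lib.DFE.Fin6

/-!
The partition function, the energy, the number of visited sites and the end-to-end distance of the
self-attracting polymer up to and including the critical line, uniformly in the length.
-/

set_option autoImplicit false

namespace Pool.Agent.Results.MP_d84477_pr.CriticalScaling

open Pool.Agent.DCOL

/-- For all `d ≥ 1` and `β > 0` there are `γ₀ < β`, `c, C > 0` and `n₀` such that for all
`γ₀ ≤ γ ≤ β` and `n ≥ n₀`, with `δ = β - γ` and
`M = max (√(δ log (1/δ)) n) (n^(d/(d+1)) (log n)^((d+2)/(2d+2)))`: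
`(2d)^n e^(-C M) ≤ Z_n ≤ (2d)^n e^(-c M)`; up to probability `e^(-M)` each, the energy and the number
of visited sites are at most `C M`, and the number of visited sites is at least
`c max (δ n² / M) ((n² / M)^(d/(d+2)))`; the mean square end-to-end distance is at most `(C M)²`. -/
theorem result : ∀ d : ℕ, 1 ≤ d → ∀ β : ℝ, 0 < β →
    ∃ (γ₀ c C : ℝ) (n₀ : ℕ), γ₀ < β ∧ 0 < c ∧ 0 < C ∧ ∀ γ : ℝ, γ₀ ≤ γ → γ ≤ β →
      ∀ n : ℕ, n₀ ≤ n → ∀ M : ℝ,
      M = max (Real.sqrt ((β - γ) * Real.log (1 / (β - γ))) * n)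
        ((n : ℝ) ^ ((d : ℝ) / (d + 1)) * Real.log n ^ (((d : ℝ) + 2) / (2 * d + 2))) →
      ((2 * d) ^ n * Real.exp (-(C * M)) ≤ partitionFunction d β γ n ∧
        partitionFunction d β γ n ≤ (2 * d) ^ n * Real.exp (-(c * M))) ∧
      prob d β γ n (fun s => C * M ≤ energy β γ s) ≤ Real.exp (-M) ∧
      prob d β γ n (fun s => C * M ≤ ((visited s).card : ℝ)) ≤ Real.exp (-M) ∧
      prob d β γ n (fun s => ((visited s).card : ℝ) ≤ c * max ((β - γ) * n ^ 2 / M)
        (((n : ℝ) ^ 2 / M) ^ ((d : ℝ) / (d + 2)))) ≤ Real.exp (-M) ∧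
      meanSquare d β γ n ≤ (C * M) ^ 2 :=
  fun _ hd _ hβ => Pool.Agent.DFE.scaling_all hd hβ

end Pool.Agent.Results.MP_d84477_pr.CriticalScaling
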